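import Pool.Agent.H126U.End

/-!
# The pole of `L(H²ᵐ(X), s)` at `s = m + 1` for products of quadratic twists of curves

`K` is any number field (the problem is the case `K = ℚ`), `C₁, …, C_r` are hyperelliptic curves
`y² = f_j(x)` over `K` with `f_j` of odd degree `2 g_j + 1 ≥ 3` (all elliptic curves are of this
kind), and for `d = (d₁, …, d_r)` the variety `X_d = ∏ C_{j, d_j}` is the product of the quadratic
twists `d_j y² = f_j(x)`.  The theorem is about the `L`-functions of all `Hⁱ(X_d)`.  For `i = 2m` and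
all `d` outside finitely many square classes of the products of the `d_j` over the sets of an even
number of factors the rank of the group of codimension `m` cycles is the binomial coefficient
`C(r, m)`.
-/

set_option autoImplicit false

namespace Pool.Agent.Results.MP_058a58_ag.ProductsOfTwists

open NumberField IsDedekindDomain Filter Topology Polynomial

/-- Number of affine points of `d y² = f(x)` with coordinates in the extension of degree `m` of the
finite field `k`, that is, the field of the elements of the algebraic closure of `k` that are fixed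
by the `m`-th power of the Frobenius of `k`. -/
noncomputable def affineCount (k : Type) [Field k] (f : k[X]) (d : k) (m : ℕ) : ℕ :=
  Nat.card {P : AlgebraicClosure k × AlgebraicClosure k //
    P.1 ^ (Nat.card k ^ m) = P.1 ∧ P.2 ^ (Nat.card k ^ m) = P.2 ∧
    algebraMap k (AlgebraicClosure k) d * P.2 ^ 2 = aeval P.1 f}

/-- Trace of the `m`-th power of the Frobenius at `v` on `H¹` of the smooth projective curve
`d y² = f(x)`, `deg f` odd: it is `q^m + 1` minus the number of points over the field with `q^m`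
elements, and there is one point at infinity. -/
noncomputable def traceH1 {K : Type} [Field K] [NumberField K] (v : HeightOneSpectrum (𝓞 K))
    (f : (𝓞 K)[X]) (d : 𝓞 K) (m : ℕ) : ℤ :=
  haveI : v.asIdeal.IsMaximal := v.isMaximal
  letI : Field (𝓞 K ⧸ v.asIdeal) := Ideal.Quotient.field v.asIdeal
  (Ideal.absNorm v.asIdeal : ℤ) ^ m + 1 -
    (affineCount (𝓞 K ⧸ v.asIdeal) (f.map (Ideal.Quotient.mk v.asIdeal))
      (Ideal.Quotient.mk v.asIdeal d) m + 1)

/-- Trace of the `m`-th power of the Frobenius at `v` on `Hⁱ` of the product of the curves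
`d_j y² = f_j(x)`, by the Künneth formula: `Hⁱ` is the sum over all `e : Fin r → {0, 1, 2}` of sum `i`
of the tensor products of the `H^{e_j}` of the curves, and the traces on the `H⁰`, `H¹`, `H²` of a
curve are `1`, `traceH1`, `q^m`. -/
noncomputable def traceH {K : Type} [Field K] [NumberField K] (i : ℕ) {r : ℕ}
    (v : HeightOneSpectrum (𝓞 K)) (f : Fin r → (𝓞 K)[X]) (d : Fin r → 𝓞 K) (m : ℕ) : ℤ :=
  ∑ e : Fin r → Fin 3, if ∑ j, (e j : ℕ) = i then
    ∏ j, (if e j = 0 then 1 else if e j = 1 then traceH1 v (f j) (d j) m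
      else (Ideal.absNorm v.asIdeal : ℤ) ^ m) else 0

open Classical in
/-- The Euler product `L(Hⁱ(X_d), s)`.  At the primes `v` outside the finite set `S` the factor is
`det(1 - Frob q^{-s} | Hⁱ)⁻¹ = exp(∑_{m ≥ 1} Tr(Frob^m | Hⁱ) q^{-ms} / m)`; at the primes of `S`,
which contains the primes of bad reduction, it is `B_v(q^{-s})⁻¹` for a polynomial `B_v`. -/
noncomputable def LFun {K : Type} [Field K] [NumberField K] (i : ℕ) {r : ℕ}
    (f : Fin r → (𝓞 K)[X]) (d : Fin r → 𝓞 K) (S : Finset (HeightOneSpectrum (𝓞 K)))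
    (B : HeightOneSpectrum (𝓞 K) → ℂ[X]) (s : ℂ) : ℂ :=
  ∏' v : HeightOneSpectrum (𝓞 K),
    if v ∈ S then ((B v).eval (((Ideal.absNorm v.asIdeal : ℕ) : ℂ) ^ (-s)))⁻¹
    else Complex.exp (∑' m : ℕ, (traceH i v f d (m + 1) : ℂ) *
      ((Ideal.absNorm v.asIdeal : ℕ) : ℂ) ^ (-((m + 1 : ℂ) * s)) / (m + 1 : ℂ))

/-- The nonempty sets `A` of factors such that `⊗_{j ∈ A} H¹(C_j)` occurs (up to a Tate twist) in
`Hⁱ` of the product. -/
def sets (r i : ℕ) : Finset (Finset (Fin r)) :=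
  Finset.univ.filter fun A => A.Nonempty ∧ A.card ≤ i ∧ i + A.card ≤ 2 * r ∧ Even (i + A.card)

/-- **Pole orders for products of quadratic twists, all cohomology groups.**  Let `T` be a finite set
of indices `k`, each with a vector `d k` of nonzero twists and a height `τ k`, such that for `k ≠ l`
in `T` with `τ k = τ l` and every set `A` in `sets r i` the product of the `d_j(k) d_j(l)` over
`j ∈ A` is not a square in `K`.  Let `c = C(r, i/2)` if `i` is even and `c = 0` if `i` is odd, and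
let `N = ∑_A C(r - |A|, (i - |A|)/2) ∏_{j ∈ A} 2 g_j`, the rest of the dimension of `Hⁱ`.

1. For every `η > 0` and all sufficiently small `ε > 0`,
`∑_k (log |L(Hⁱ(X_{d(k)}), i/2 + 1 + iτ_k + ε)| / log(1/ε) - c [τ_k = 0])² ≤ N² + η`.

2. If for all `k ∈ T` the number `m k` is the order of `L(Hⁱ(X_{d(k)}), s)` at the point
`s_k = i/2 + 1 + iτ_k`, in the sense that `(s - s_k)^{-m_k} L(s)` has a finite nonzero limit as
`s - s_k → 0` through positive real numbers, then `∑_k (m_k + c [τ_k = 0])² ≤ N²`, and so at most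
`N²` of the `k ∈ T` with `τ_k = 0` have an order `m_k ≠ -c` at `s = i/2 + 1`. -/
theorem result (K : Type) [Field K] [NumberField K] (r i : ℕ) (f : Fin r → (𝓞 K)[X])
    (hodd : ∀ j, Odd (f j).natDegree) (h3 : ∀ j, 3 ≤ (f j).natDegree)
    (κ : Type) (T : Finset κ) (d : κ → Fin r → 𝓞 K) (τ : κ → ℝ)
    (hd0 : ∀ k ∈ T, ∀ j, d k j ≠ 0)
    (hsep : ∀ k ∈ T, ∀ l ∈ T, k ≠ l → τ k = τ l → ∀ A ∈ sets r i,
      ¬ IsSquare ((∏ j ∈ A, (d k j * d l j) : 𝓞 K) : K))
    (S : κ → Finset (HeightOneSpectrum (𝓞 K)))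
    (hS : ∀ k ∈ T, ∀ v, v ∉ S k → ∀ j, 2 * d k j * (f j).leadingCoeff ∉ v.asIdeal ∧
      ((f j).map (Ideal.Quotient.mk v.asIdeal)).Separable)
    (B : κ → HeightOneSpectrum (𝓞 K) → ℂ[X])
    (hB : ∀ k ∈ T, ∀ v ∈ S k, ∀ s : ℂ, s.re = (i : ℝ) / 2 + 1 →
      (B k v).eval (((Ideal.absNorm v.asIdeal : ℕ) : ℂ) ^ (-s)) ≠ 0)
    (c N : ℕ) (hc : c = if Even i then r.choose (i / 2) else 0)
    (hN : N = ∑ A ∈ sets r i,
      (r - A.card).choose ((i - A.card) / 2) * ∏ j ∈ A, ((f j).natDegree - 1)) :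
    (∀ η : ℝ, 0 < η → ∀ᶠ ε : ℝ in 𝓝[>] 0,
      ∑ k ∈ T, (Real.log ‖LFun i f (d k) (S k) (B k) ((i : ℂ) / 2 + 1 + τ k * Complex.I + ε)‖ /
        Real.log (1 / ε) - if τ k = 0 then (c : ℝ) else 0) ^ 2 ≤ (N : ℝ) ^ 2 + η) ∧
    (∀ m : κ → ℤ, (∀ k ∈ T, ∃ a : ℂ, a ≠ 0 ∧ Tendsto (fun ε : ℝ => (ε : ℂ) ^ (-m k) *
        LFun i f (d k) (S k) (B k) ((i : ℂ) / 2 + 1 + τ k * Complex.I + ε)) (𝓝[>] 0) (𝓝 a)) →
      ∑ k ∈ T, (m k + if τ k = 0 then (c : ℤ) else 0) ^ 2 ≤ (N : ℤ) ^ 2 ∧
        (T.filter fun k => τ k = 0 ∧ m k ≠ -(c : ℤ)).card ≤ N ^ 2) := by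
  classical
  subst hc
  obtain ⟨h1, h2⟩ := Pool.Agent.H126U.main i f hodd h3 T d τ hd0
    (fun k hk l hl hkl A hA hsq hτ => hsep k hk l hl hkl hτ A hA hsq) S
    (fun k hk v hv j => (hS k hk v hv j).1) B hB N hN
  refine ⟨h1, fun m hm => ?_⟩
  have hex : ∀ k, ∃ a : ℂ, k ∈ T → a ≠ 0 ∧ Tendsto (fun ε : ℝ => (ε : ℂ) ^ (-m k) *
      LFun i f (d k) (S k) (B k) ((i : ℂ) / 2 + 1 + τ k * Complex.I + ε)) (𝓝[>] 0) (𝓝 a) := by
    intro k
    by_cases hk : k ∈ T
    · obtain ⟨a, ha⟩ := hm k hk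
      exact ⟨a, fun _ => ha⟩
    · exact ⟨0, fun h => absurd h hk⟩
  choose a ha using hex
  have hm2 := h2 m a ha
  refine ⟨hm2, ?_⟩
  set c : ℕ := if Even i then r.choose (i / 2) else 0 with hc
  have h5 : ((T.filter fun k => τ k = 0 ∧ m k ≠ -(c : ℤ)).card : ℤ) ≤
      ∑ k ∈ T, (m k + if τ k = 0 then (c : ℤ) else 0) ^ 2 := by
    rw [Finset.card_eq_sum_ones]
    push_cast
    rw [Finset.sum_filter]
    refine Finset.sum_le_sum fun k _ => ?_
    split_ifs with h6 h7 h7
    · have h8 : m k + c ≠ 0 := fun h => h6.2 (by linarith)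
      have := Int.one_le_abs h8
      nlinarith [sq_abs (m k + (c : ℤ))]
    · exact absurd h6.1 h7
    · positivity
    · positivity
  exact_mod_cast h5.trans hm2

end Pool.Agent.Results.MP_058a58_ag.ProductsOfTwists
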